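import Mathlib
import Pool.Agent.Helper160.SupC

/-!
Direct products of a supramenable group with an exponentially bounded group are supramenable.
-/

set_option autoImplicit false

namespace Pool.Agent.Results.MP_f53b3d_al.ExponentiallyBoundedFactor

open Pointwise Filter

universe u v

/-- `G` is supramenable: every nonempty subset `A` has measure `1` for some finitely additive
left-invariant `[0,∞]`-valued measure defined on all subsets of `G`. -/
def Supramenable (G : Type u) [Group G] : Prop :=
  ∀ A : Set G, A.Nonempty → ∃ μ : Set G → ENNReal,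
    (∀ S T : Set G, Disjoint S T → μ (S ∪ T) = μ S + μ T) ∧
    (∀ (g : G) (S : Set G), μ ((fun x => g * x) '' S) = μ S) ∧
    μ A = 1

/-- `H` is exponentially bounded: for every finite subset `T` of `H` the number of elements of
`H` that are products of `n` elements of `T` grows subexponentially, that is, it is at most
`c ^ n` for all large `n`, for every real `c > 1`. -/
def ExponentiallyBounded (H : Type v) [Group H] : Prop :=
  ∀ (T : Finset H) (c : ℝ), 1 < c →
    ∀ᶠ n : ℕ in atTop, (((T : Set H) ^ n).ncard : ℝ) ≤ c ^ n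

/-- Sanity check: every abelian group is exponentially bounded. -/
theorem exponentiallyBounded_of_comm (H : Type v) [CommGroup H] : ExponentiallyBounded H := by
  classical
  intro T c hc
  have key : ∀ n : ℕ, ∀ x ∈ (T : Set H) ^ n, ∃ f : T → ℕ, (∀ t, f t ≤ n) ∧
      x = ∏ t : T, (t : H) ^ f t := by
    intro n
    induction n with
    | zero =>
      intro x hx
      rw [pow_zero, Set.mem_one] at hx
      exact ⟨fun _ => 0, fun _ => le_refl _, by simp [hx]⟩
    | succ n ih =>
      intro x hx
      rw [pow_succ, Set.mem_mul] at hx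
      obtain ⟨y, hy, t, ht, rfl⟩ := hx
      obtain ⟨f, hf, rfl⟩ := ih y hy
      refine ⟨fun s => f s + if s = ⟨t, ht⟩ then 1 else 0, ?_, ?_⟩
      · intro s
        have := hf s
        dsimp only
        split_ifs <;> omega
      · simp only [pow_add, Finset.prod_mul_distrib, pow_ite, pow_one, pow_zero,
          Finset.prod_ite_eq', Finset.mem_univ, if_true]
  have hcard : ∀ n : ℕ, ((T : Set H) ^ n).ncard ≤ (n + 1) ^ T.card := by
    intro n
    have hsub : (T : Set H) ^ n ⊆
        (fun f : T → Fin (n + 1) => ∏ t : T, (t : H) ^ (f t : ℕ)) '' Set.univ := by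
      intro x hx
      obtain ⟨f, hf, rfl⟩ := key n x hx
      exact ⟨fun t => ⟨f t, Nat.lt_succ_of_le (hf t)⟩, Set.mem_univ _, rfl⟩
    calc ((T : Set H) ^ n).ncard ≤ _ := Set.ncard_le_ncard hsub (Set.toFinite _)
      _ ≤ (Set.univ : Set (T → Fin (n + 1))).ncard := Set.ncard_image_le (Set.toFinite _)
      _ = (n + 1) ^ T.card := by
        rw [Set.ncard_univ, Nat.card_eq_fintype_card, Fintype.card_fun, Fintype.card_fin,
          Fintype.card_coe]
  have hlim : Tendsto (fun n : ℕ => ((n + 1 : ℕ) : ℝ) ^ T.card / c ^ (n + 1)) atTop (nhds 0) :=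
    (tendsto_pow_const_div_const_pow_of_one_lt T.card hc).comp (tendsto_add_atTop_nat 1)
  have hc0 : 0 < c := by linarith
  filter_upwards [hlim.eventually (gt_mem_nhds (show (0 : ℝ) < 1 / c by positivity))] with n hn
  have h1 : (((T : Set H) ^ n).ncard : ℝ) ≤ ((n + 1 : ℕ) : ℝ) ^ T.card := by
    exact_mod_cast hcard n
  refine h1.trans ?_
  rw [div_lt_div_iff₀ (by positivity) hc0] at hn
  rw [pow_succ] at hn
  nlinarith

/-- Products of a supramenable group with an exponentially bounded group, in either order, are
supramenable. -/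
theorem result :
    ∀ (G : Type u) (H : Type v) [Group G] [Group H],
      Supramenable G → ExponentiallyBounded H →
        Supramenable (G × H) ∧ Supramenable (H × G) := by
  intro G H _ _ hG hH
  refine ⟨Pool.Agent.Helper160.Supra.main_prod hG hH, ?_⟩
  have hswap := Pool.Agent.Helper160.Supra.main_prod hG hH
  intro A hA
  obtain ⟨μ, h1, h2, h3⟩ := hswap (Prod.swap ⁻¹' A)
    (hA.preimage Prod.swap_surjective)
  refine ⟨fun S => μ (Prod.swap ⁻¹' S), ?_, ?_, h3⟩
  · intro S T hST
    dsimp only
    rw [Set.preimage_union]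
    exact h1 _ _ (hST.preimage _)
  · intro g S
    dsimp only
    rw [← h2 g.swap (Prod.swap ⁻¹' S)]
    congr 1
    ext x
    simp only [Set.mem_preimage, Set.mem_image]
    constructor
    · rintro ⟨y, hy, hxy⟩
      refine ⟨y.swap, by simpa using hy, ?_⟩
      have := congrArg Prod.swap hxy
      simpa using this
    · rintro ⟨y, hy, hxy⟩
      refine ⟨y.swap, hy, ?_⟩
      rw [← hxy]
      rfl

end Pool.Agent.Results.MP_f53b3d_al.ExponentiallyBoundedFactor
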